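import Pool.Agent.H12.KTH.Stmts
import Pool.Agent.H32.Dense.Zero
import Pool.Agent.H32.Dense.Loc
import Pool.Agent.H32.Dense.Step

/-!
# The arithmetic Kakeya inequality with the exponent `1.6752`, all dimensions

Finite iteration `2 → 1.75 → 1.6931 → 1.6795 → 1.6762 → 1.6754 → 1.6752` of `akd_of_akg` and
`step_gen`.
-/

set_option autoImplicit false

namespace Pool.KTH

open Finset Real
open Pool.Agent.H49.Ent Pool.Agent.H32.Dense

/-- one step of the iteration, with rounding of the exponent -/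
lemma akd_next {d : ℕ} {a b : ℝ} (h : ∃ lam B₀ B₁ : ℝ, 0 ≤ lam ∧ 0 ≤ B₁ ∧ AKG d a lam B₀ B₁)
    (ha : 1 ≤ a) (ha2 : a ≤ 2) (hb : 3 * a ^ 2 + 2 * a - 2 ≤ b * (a ^ 2 + 3 * a - 2)) :
    ∃ lam B₀ B₁ : ℝ, 0 ≤ lam ∧ 0 ≤ B₁ ∧ AKG d b lam B₀ B₁ := by
  obtain ⟨lam, B₀, B₁, hl, hB, hA⟩ := h
  have hd : (0 : ℝ) ≤ d := Nat.cast_nonneg d
  obtain ⟨B, hD⟩ := akd_of_akg hA (by linarith) hl hB one_pos
  have hl' : 0 ≤ max lam ((1 + 1) * ((d : ℝ) + 1)) := le_max_of_le_left hl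
  obtain ⟨B₀', B₁', hB', hG⟩ := step_gen hD ha ha2 hl'
  have hDD : 0 < a ^ 2 + 3 * a - 2 := by nlinarith
  refine ⟨(4 * a ^ 2 + 5 * a - 4 + (3 * a - 1) * max lam ((1 + 1) * ((d : ℝ) + 1))) /
      (a ^ 2 + 3 * a - 2), B₀', B₁', ?_, hB', ?_⟩
  · apply div_nonneg _ hDD.le
    have h1 : 0 ≤ (3 * a - 1) * max lam ((1 + 1) * ((d : ℝ) + 1)) :=
      mul_nonneg (by linarith) hl'
    nlinarith
  · intro M Ω _ ζ p Z v u τ h
    have h1 := hG M Ω ζ p Z v u τ h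
    have h2 : 0 ≤ Sf M p Z v u τ := CH_nonneg h.hp _ _
    have h3 : (3 * a ^ 2 + 2 * a - 2) / (a ^ 2 + 3 * a - 2) ≤ b := by
      rw [div_le_iff₀ hDD]
      exact hb
    have h4 := mul_le_mul_of_nonneg_right h3 h2
    linarith

/-- The inequality with the exponent `1.6752`, every dimension. -/
theorem akd_all (d : ℕ) : ∃ lam B : ℝ, 0 ≤ lam ∧ AKD d 1.6752 lam B := by
  have h0 : ∃ lam B₀ B₁ : ℝ, 0 ≤ lam ∧ 0 ≤ B₁ ∧ AKG d 2 lam B₀ B₁ :=
    ⟨2, 2 * d, d, by norm_num, Nat.cast_nonneg d, level0G d⟩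
  have h1 := akd_next (b := 1.75) h0 (by norm_num) (by norm_num) (by norm_num)
  have h2 := akd_next (b := 1.6931) h1 (by norm_num) (by norm_num) (by norm_num)
  have h3 := akd_next (b := 1.6795) h2 (by norm_num) (by norm_num) (by norm_num)
  have h4 := akd_next (b := 1.6762) h3 (by norm_num) (by norm_num) (by norm_num)
  have h5 := akd_next (b := 1.6754) h4 (by norm_num) (by norm_num) (by norm_num)
  have h6 := akd_next (b := 1.6752) h5 (by norm_num) (by norm_num) (by norm_num)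
  obtain ⟨lam, B₀, B₁, hl, hB, hA⟩ := h6
  obtain ⟨B, hD⟩ := akd_of_akg hA (by norm_num) hl hB one_pos
  exact ⟨_, B, le_max_of_le_left hl, hD⟩

/-- (PUR) -/
theorem pur : PURStmt := by
  intro d _ ε hε
  obtain ⟨lam, B, hl, hA⟩ := akd_all d
  have hlog2 : 0 < Real.log 2 := Real.log_pos (by norm_num)
  obtain ⟨J₀, hJ₀⟩ := exists_nat_gt (2 * |B| / (ε * Real.log 2))
  refine ⟨ε / (2 * (lam + 1)), by positivity, J₀, fun J hJ G e he hT => ?_⟩
  have h1 := hA (2 ^ J) G.Ω G.ζ G.p G.Z G.v G.u G.τ G.isFam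
  have hlm : 0 ≤ lm J := by unfold lm; positivity
  have hK : Kf (2 ^ J) G.p (fun ω => (G.v ω, G.Z ω)) G.τ ≤ e := by
    have h2 : Real.log ((2 ^ J : ℕ) : ℝ) = lm J := by
      unfold lm
      push_cast
      rw [Real.log_pow]
    have h3 : lm J - e ≤ CH G.p G.τ (fun ω => (G.v ω, G.Z ω)) := hT
    unfold Kf
    linarith
  have h4 : lam * Kf (2 ^ J) G.p (fun ω => (G.v ω, G.Z ω)) G.τ ≤ ε / 2 * lm J := by
    have h5 : lam * Kf (2 ^ J) G.p (fun ω => (G.v ω, G.Z ω)) G.τ ≤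
        lam * (ε / (2 * (lam + 1)) * lm J) := mul_le_mul_of_nonneg_left (hK.trans he) hl
    have h6 : lam * (ε / (2 * (lam + 1)) * lm J) = lam / (lam + 1) * (ε / 2 * lm J) := by
      field_simp
    have h7 : lam / (lam + 1) ≤ 1 := by
      rw [div_le_one (by linarith)]
      linarith
    have h8 : lam / (lam + 1) * (ε / 2 * lm J) ≤ 1 * (ε / 2 * lm J) :=
      mul_le_mul_of_nonneg_right h7 (by positivity)
    linarith
  have h9 : B ≤ ε / 2 * lm J := by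
    have h10 : 2 * |B| / (ε * Real.log 2) ≤ J := hJ₀.le.trans (by exact_mod_cast hJ)
    rw [div_le_iff₀ (by positivity)] at h10
    have h11 := le_abs_self B
    unfold lm
    nlinarith
  have h12 : aa * G.S = 1.6752 * Sf (2 ^ J) G.p G.Z G.v G.u G.τ := rfl
  have h13 : G.L = CH G.p G.v G.Z := rfl
  rw [h12, h13]
  linarith

end Pool.KTH
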